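import Mathlib

set_option autoImplicit false

namespace Pool.Agent.Results.MP_5f370d_co.SixHomothets

/-- The Euclidean plane. -/
abbrev Plane : Type := EuclideanSpace ℝ (Fin 2)

/-- A plane convex body: a compact convex set with nonempty interior. -/
def IsPlaneConvexBody (K : Set Plane) : Prop :=
  IsCompact K ∧ Convex ℝ K ∧ (interior K).Nonempty

/-- The homothetic copy `x + r K`. -/
def homothet (K : Set Plane) (x : Plane) (r : ℝ) : Set Plane :=
  {y : Plane | ∃ k ∈ K, y = x + r • k}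

/-- `K` is covered by `m` homothetic copies of itself with ratios in the open interval from `0`
to `1/2`. -/
def CoverableBelowHalf (m : ℕ) (K : Set Plane) : Prop :=
  ∃ (x : Fin m → Plane) (r : Fin m → ℝ),
    (∀ i, 0 < r i ∧ r i < 1 / 2) ∧ K ⊆ ⋃ i, homothet K (x i) (r i)

/-- The quadrilateral with vertices `(0,0)`, `(2,0)`, `(3/2,3/2)`, `(0,2)`. -/
def quad : Set Plane :=
  {p | 0 ≤ p 0 ∧ 0 ≤ p 1 ∧ 3 * p 0 + p 1 ≤ 6 ∧ p 0 + 3 * p 1 ≤ 6}

lemma isClosed_quad : IsClosed quad := by
  have h0 : Continuous (fun p : Plane => p 0) := by fun_prop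
  have h1 : Continuous (fun p : Plane => p 1) := by fun_prop
  have e : quad = {p : Plane | 0 ≤ p 0} ∩ {p : Plane | 0 ≤ p 1} ∩
      {p : Plane | 3 * p 0 + p 1 ≤ 6} ∩ {p : Plane | p 0 + 3 * p 1 ≤ 6} := by
    ext p
    constructor
    · rintro ⟨g0, g1, g2, g3⟩
      exact ⟨⟨⟨g0, g1⟩, g2⟩, g3⟩
    · rintro ⟨⟨⟨g0, g1⟩, g2⟩, g3⟩
      exact ⟨g0, g1, g2, g3⟩
  rw [e]
  refine ((IsClosed.inter ?_ ?_).inter ?_).inter ?_
  · exact isClosed_le continuous_const h0
  · exact isClosed_le continuous_const h1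
  · exact isClosed_le (by fun_prop) continuous_const
  · exact isClosed_le (by fun_prop) continuous_const

lemma isBounded_quad : Bornology.IsBounded quad := by
  rw [isBounded_iff_forall_norm_le]
  refine ⟨4, fun p hp => ?_⟩
  obtain ⟨h0, h1, h2, h3⟩ := hp
  rw [EuclideanSpace.norm_eq]
  apply Real.sqrt_le_iff.mpr
  refine ⟨by norm_num, ?_⟩
  rw [Fin.sum_univ_two, Real.norm_eq_abs, Real.norm_eq_abs, sq_abs, sq_abs]
  nlinarith

lemma isCompact_quad : IsCompact quad :=
  Metric.isCompact_of_isClosed_isBounded isClosed_quad isBounded_quad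

lemma convex_quad : Convex ℝ quad := by
  intro p hp q hq a b ha hb hab
  obtain ⟨h0, h1, h2, h3⟩ := hp
  obtain ⟨g0, g1, g2, g3⟩ := hq
  have e0 : (a • p + b • q) 0 = a * p 0 + b * q 0 := by simp
  have e1 : (a • p + b • q) 1 = a * p 1 + b * q 1 := by simp
  refine ⟨?_, ?_, ?_, ?_⟩
  · rw [e0]; nlinarith [mul_nonneg ha h0, mul_nonneg hb g0]
  · rw [e1]; nlinarith [mul_nonneg ha h1, mul_nonneg hb g1]
  · rw [e0, e1]
    have := mul_le_mul_of_nonneg_left h2 ha
    have := mul_le_mul_of_nonneg_left g2 hb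
    nlinarith
  · rw [e0, e1]
    have := mul_le_mul_of_nonneg_left h3 ha
    have := mul_le_mul_of_nonneg_left g3 hb
    nlinarith

lemma interior_quad_nonempty : (interior quad).Nonempty := by
  have h0 : Continuous (fun p : Plane => p 0) := by fun_prop
  have h1 : Continuous (fun p : Plane => p 1) := by fun_prop
  refine ⟨!₂[(1 : ℝ) / 2, 1 / 2], ?_⟩
  rw [mem_interior]
  refine ⟨{p : Plane | 0 < p 0} ∩ {p : Plane | 0 < p 1} ∩
      {p : Plane | 3 * p 0 + p 1 < 6} ∩ {p : Plane | p 0 + 3 * p 1 < 6}, ?_, ?_, ?_⟩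
  · rintro p ⟨⟨⟨h0, h1⟩, h2⟩, h3⟩
    exact ⟨le_of_lt h0, le_of_lt h1, le_of_lt h2, le_of_lt h3⟩
  · refine ((IsOpen.inter ?_ ?_).inter ?_).inter ?_
    · exact isOpen_lt continuous_const h0
    · exact isOpen_lt continuous_const h1
    · exact isOpen_lt (by fun_prop) continuous_const
    · exact isOpen_lt (by fun_prop) continuous_const
  · refine ⟨⟨⟨?_, ?_⟩, ?_⟩, ?_⟩ <;> simp <;> norm_num

lemma isPlaneConvexBody_quad : IsPlaneConvexBody quad :=
  ⟨isCompact_quad, convex_quad, interior_quad_nonempty⟩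

/-- Membership in a homothetic copy of ratio `12/25` in coordinates. -/
lemma mem_homothet {u v : ℝ} {p : Plane} (h0 : u ≤ p 0) (h1 : v ≤ p 1)
    (h2 : 3 * (p 0 - u) + (p 1 - v) ≤ 72 / 25) (h3 : (p 0 - u) + 3 * (p 1 - v) ≤ 72 / 25) :
    p ∈ homothet quad !₂[u, v] (12 / 25) := by
  refine ⟨!₂[(25 / 12) * (p 0 - u), (25 / 12) * (p 1 - v)], ?_, ?_⟩
  · refine ⟨?_, ?_, ?_, ?_⟩
    · simp; linarith
    · simp; linarith
    · simp; linarith
    · simp; linarith
  · ext i
    fin_cases i
    · simp; ring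
    · simp; ring

/-- The translation vectors of the six copies. -/
noncomputable def shift : Fin 6 → Plane :=
  ![!₂[0, 0], !₂[7 / 10, 0], !₂[6 / 5, 0], !₂[0, 7 / 10], !₂[0, 6 / 5], !₂[39 / 50, 39 / 50]]

lemma quad_subset : quad ⊆ ⋃ i, homothet quad (shift i) (12 / 25) := by
  intro p hp
  obtain ⟨h0, h1, h2, h3⟩ := hp
  rw [Set.mem_iUnion]
  rcases le_total (p 1) (39 / 50) with hy | hy
  · rcases le_total (6 / 5) (p 0) with hx | hx
    · exact ⟨2, mem_homothet (by linarith) (by linarith) (by linarith) (by linarith)⟩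
    · rcases le_total (7 / 10) (p 0) with hx' | hx'
      · exact ⟨1, mem_homothet (by linarith) (by linarith) (by linarith) (by linarith)⟩
      · rcases le_total (p 1) (7 / 10) with hy' | hy'
        · exact ⟨0, mem_homothet (by linarith) (by linarith) (by linarith) (by linarith)⟩
        · exact ⟨3, mem_homothet (by linarith) (by linarith) (by linarith) (by linarith)⟩
  · rcases le_total (39 / 50) (p 0) with hx | hx
    · exact ⟨5, mem_homothet (by linarith) (by linarith) (by linarith) (by linarith)⟩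
    · rcases le_total (6 / 5) (p 1) with hy' | hy'
      · exact ⟨4, mem_homothet (by linarith) (by linarith) (by linarith) (by linarith)⟩
      · exact ⟨3, mem_homothet (by linarith) (by linarith) (by linarith) (by linarith)⟩

/-- There is a plane convex body that is covered by six homothetic copies of itself, each with a
positive ratio smaller than `1/2`. -/
theorem result : ∃ K : Set Plane, IsPlaneConvexBody K ∧ CoverableBelowHalf 6 K :=
  ⟨quad, isPlaneConvexBody_quad, shift, fun _ => 12 / 25,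
    fun _ => ⟨by norm_num, by norm_num⟩, quad_subset⟩

end Pool.Agent.Results.MP_5f370d_co.SixHomothets
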